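import Mathlib
import Pool.Agent.Helper12.BX.Play0

/-!
# The end of the play: the limit of the states
-/

set_option autoImplicit false

namespace Pool.Agent.Helper12.BX

/-- Properties of the sequence of states with bounds. -/
theorem play_seq {g : PF → ℕ → ℕ} (F : Fus g) (k : PF → ℕ) (h0 : PlayZero F) (h1 : PlayStep F) :
    ∃ (x : ℕ → PSt F) (K : ℕ → ℕ) (H : ℕ → ℕ → ℕ),
      (∀ l, Ext (x l).B (x (l + 1)).B) ∧
      (∀ l d v, (x l).B d = none → (x (l + 1)).B d = some v → K l ≤ d ∧ H l d ≤ v) ∧
      (∀ l, K l ≤ lev (x (l + 1)).u (x (l + 1)).n) ∧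
      (∀ l t, t < K l → xv (x (l + 1)).u (x (l + 1)).n t = xv (x l).u (x l).n t) ∧
      (∀ l, k (x l).u ≤ K l ∧ lev (x l).u (x l).n + 1 ≤ K l) ∧
      (∀ l d, g (x l).u d ≤ H l d) ∧
      (∀ l, K l ≤ K (l + 1)) ∧ ∀ l d, H l d ≤ H (l + 1) d := by
  classical
  obtain ⟨x0, -, -⟩ := h0
  choose f hf using h1
  let nxt : PSt F × ℕ × (ℕ → ℕ) → PSt F × ℕ × (ℕ → ℕ) := fun T =>
    let y := f T.1 T.2.1 T.2.2
    (y, max T.2.1 (max (k y.u) (lev y.u y.n + 1)), fun d => max (T.2.2 d) (g y.u d))
  let T0 : PSt F × ℕ × (ℕ → ℕ) := (x0, max (k x0.u) (lev x0.u x0.n + 1), fun d => g x0.u d)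
  let T : ℕ → PSt F × ℕ × (ℕ → ℕ) := fun l => Nat.rec T0 (fun _ S => nxt S) l
  have hT : ∀ l, T (l + 1) = nxt (T l) := fun l => rfl
  refine ⟨fun l => (T l).1, fun l => (T l).2.1, fun l => (T l).2.2, ?_, ?_, ?_, ?_, ?_, ?_, ?_, ?_⟩
  · intro l
    exact (hf (T l).1 (T l).2.1 (T l).2.2).1
  · intro l
    exact (hf (T l).1 (T l).2.1 (T l).2.2).2.1
  · intro l
    exact (hf (T l).1 (T l).2.1 (T l).2.2).2.2.1
  · intro l
    exact (hf (T l).1 (T l).2.1 (T l).2.2).2.2.2
  · intro l
    cases l with
    | zero => exact ⟨le_max_left _ _, le_max_right _ _⟩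
    | succ l =>
      exact ⟨(le_max_left _ _).trans (le_max_right _ _), (le_max_right _ _).trans (le_max_right _ _)⟩
  · intro l d
    cases l with
    | zero => exact le_rfl
    | succ l => exact le_max_right _ _
  · intro l
    exact le_max_left _ _
  · intro l d
    exact le_max_left _ _

theorem playEnd : PlayEnd := by
  classical
  intro hF h0 h1 k g
  obtain ⟨F⟩ := hF g
  obtain ⟨x, K, H, hE, hN, hL, hX, hK, hg, hKm, hHm⟩ := play_seq F k (h0 g F) (h1 g F)
  have hKmono : Monotone K := monotone_nat_of_le_succ hKm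
  have hHmono : ∀ d, Monotone fun l => H l d := fun d => monotone_nat_of_le_succ fun l => hHm l d
  have hEx : ∀ j l, j ≤ l → Ext (x j).B (x l).B := by
    intro j l hjl
    induction l, hjl using Nat.le_induction with
    | base => exact Ext.refl _
    | succ l _ ih => exact ih.trans (hE l)
  have hNew : ∀ j l, j ≤ l → ∀ d v, (x j).B d = none → (x l).B d = some v →
      K j ≤ d ∧ H j d ≤ v := by
    intro j l hjl
    induction l, hjl using Nat.le_induction with
    | base =>
      intro d v h h'
      rw [h] at h'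
      cases h'
    | succ l hl ih =>
      intro d v h h'
      cases hd : (x l).B d with
      | none =>
        have h2 := hN l d v hd h'
        exact ⟨(hKmono hl).trans h2.1, (hHmono d hl).trans h2.2⟩
      | some w =>
        have h2 := hE l d w hd
        rw [h2] at h'
        rw [← Option.some.inj h']
        exact ih d w h hd
  have hxv : ∀ j l, j ≤ l → ∀ t, t < K j → xv (x l).u (x l).n t = xv (x j).u (x j).n t := by
    intro j l hjl
    induction l, hjl using Nat.le_induction with
    | base => intro t _; rfl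
    | succ l hl ih =>
      intro t ht
      rw [hX l t (ht.trans_le (hKmono hl)), ih t ht]
  have hKl : ∀ l, l + 1 ≤ K l := by
    intro l
    induction l with
    | zero => exact le_trans (by omega) (hK 0).2
    | succ l ih =>
      have h2 := (hK (l + 1)).2
      have h3 := hL l
      omega
  let w : PF := fun d => if h : ∃ l, (x l).B d ≠ none then (x (Nat.find h)).B d else none
  have hw1 : ∀ l d v, (x l).B d = some v → w d = some v := by
    intro l d v h
    have h2 : ∃ l, (x l).B d ≠ none := ⟨l, by rw [h]; simp⟩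
    have h3 : w d = (x (Nat.find h2)).B d := dif_pos h2
    rw [h3]
    obtain ⟨v', hv'⟩ := Option.ne_none_iff_exists'.1 (Nat.find_spec h2)
    have h4 : Nat.find h2 ≤ l := Nat.find_min' h2 (by rw [h]; simp)
    have h5 := hEx _ _ h4 d v' hv'
    rw [h] at h5
    rw [hv', h5]
  have hw2 : ∀ d v, w d = some v → ∃ l, (x l).B d = some v := by
    intro d v h
    by_cases h2 : ∃ l, (x l).B d ≠ none
    · have h3 : w d = (x (Nat.find h2)).B d := dif_pos h2
      exact ⟨Nat.find h2, by rw [← h3]; exact h⟩
    · have h3 : w d = none := dif_neg h2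
      rw [h3] at h
      cases h
  refine ⟨fun l => (x l).u, fun l => (x l).n, fun t => xv (x (t + 1)).u (x (t + 1)).n t, w, ?_⟩
  intro l
  refine ⟨(x l).ff, ?_, ⟨?_, ?_⟩, ?_⟩
  · intro t ht
    show xv (x (t + 1)).u (x (t + 1)).n t = xv (x l).u (x l).n t
    rcases le_total l (t + 1) with h | h
    · exact hxv l (t + 1) h t (ht.trans_le (hK l).1)
    · exact (hxv (t + 1) l h t (by have := hKl (t + 1); omega)).symm
  · intro d v hd
    have hne : d ≠ lev (x l).u (x l).n := by
      intro he
      have h2 : (x l).u d = none := by rw [he]; exact (x l).none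
      have h3 : (x l).u d = some v := hd
      rw [h2] at h3
      cases h3
    exact hw1 l d v (by rw [(x l).eqB d hne]; exact hd)
  · intro d v hd hwd
    by_cases hne : d = lev (x l).u (x l).n
    · obtain ⟨b, hb, hgb⟩ := (x l).val
      have h2 := hw1 l _ b hb
      rw [← hne, hwd] at h2
      cases h2
      rw [hne]
      exact hgb
    · have hB : (x l).B d = none := by rw [(x l).eqB d hne]; exact hd
      obtain ⟨m, hm⟩ := hw2 d v hwd
      rcases le_total m l with h | h
      · have h2 := hEx m l h d v hm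
        rw [hB] at h2
        cases h2
      · exact (hg l d).trans (hNew l m h d v hB hm).2
  · show l ≤ lev (x l).u (x l).n
    cases l with
    | zero => exact Nat.zero_le _
    | succ l => exact (hKl l).trans (hL l)

end Pool.Agent.Helper12.BX
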